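import Mathlib

namespace Pool.Agent.Results.MP_90db2d_al.Two

/-- a left path of length n in the commuting graph -/
def LeftPath {S : Type} [Mul S] (n : ℕ) (x : Fin (n + 1) → S) : Prop :=
  (∀ i, ∃ y, x i * y ≠ y * x i) ∧ Function.Injective x ∧ x 0 ≠ x (Fin.last n) ∧
  (∀ i : Fin n, x i.castSucc * x i.succ = x i.succ * x i.castSucc) ∧
  ∀ i, x 0 * x i = x (Fin.last n) * x i

def code : ℕ := 246846227251043255079621340453213315509699183551961103225953072029110544355321628267258765374742545983233980069391643685959959017262833867173286369573745863088537839138645343066419643098548120060145576379566002338481455451084003732286786053990931090429181973333545793447106078911985924743033699707599005563791021505521761974804422422812785880808633034413721063201822363262674249706190514698412756539417830611848827681983969160375617373909276228566163639475580965088251717880118034357229461153921278677627005337208977211048865085964900019318695046028346881705585166418341984925708961980300834211186114708021606156986856085060423698128362888256770751507128933189381454750552572573325086360520070231329024579853400979760446964335272968138096894457458159353982859129492707177351056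5556471858699373493641932145230831557203100234050695377901765734484452147889607063679288334395934282212795350707949065714693253351339607672580977790585220206997760514532008402620788114630632553907092769677857789323832111297910104103938361976716047953455240655665977589072117536217913424053228578815657670716147207042927572043484388608354336862832517048683894760591587204997825694872648112636246085723176434971162144238213253599466836730006009264521996781488071048872610280849346990616339370814845343172151881614381540077310685275248648792291429303017879454693545715440430958364573001062306426645561185169220292093974403312473210538734397819681656014963377974589887777516727117275577556671493784877312158580288358432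

def m (a b : ℕ) : ℕ := (code >>> (5 * (32 * a + b))) % 32

def S : Type := Fin 31

instance : DecidableEq S := inferInstanceAs (DecidableEq (Fin 31))
instance : Fintype S := inferInstanceAs (Fintype (Fin 31))

def al (p : ℕ → Bool) : Bool := (List.range 31).all p

lemma al_spec {p : ℕ → Bool} (h : al p = true) (a : Fin 31) : p a = true :=
  List.all_eq_true.1 h a (List.mem_range.2 a.2)

lemma m_lt (a b : Fin 31) : m a b < 31 := by
  have : al (fun a => al fun b => decide (m a b < 31)) = true := by decide +kernel
  exact of_decide_eq_true (al_spec (al_spec this a) b)

def mul (a b : Fin 31) : Fin 31 := ⟨m a b, m_lt a b⟩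

instance : Semigroup S where
  mul := mul
  mul_assoc a b c := by
    have : al (fun a => al fun b => al fun c => m (m a b) c == m a (m b c)) = true := by
      decide +kernel
    exact Fin.ext (beq_iff_eq.1 (al_spec (al_spec (al_spec this a) b) c))

lemma inv (x : S) : ∃! y : S, x * y * x = x ∧ y * x * y = y := by
  have h1 : ∀ x : Fin 31, ∃ y : Fin 31, (m (m x y) x = x ∧ m (m y x) y = y) ∧
      ∀ z : Fin 31, m (m x z) x = x ∧ m (m z x) z = z → z = y := by decide +kernel
  obtain ⟨y, ⟨h2, h3⟩, h4⟩ := h1 x
  exact ⟨y, ⟨Fin.ext h2, Fin.ext h3⟩, fun z hz =>
    h4 z ⟨congrArg Fin.val hz.1, congrArg Fin.val hz.2⟩⟩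

lemma no1 : ∀ a b : S, a * b = b * a → a * a = b * a → a * b = b * b → a ≠ b →
    (∀ y, a * y = y * a) ∨ ∀ y, b * y = y * b := by
  decide +kernel

theorem result : ∃ (S : Type) (_ : Semigroup S) (_ : Finite S),
    (∀ x : S, ∃! y : S, x * y * x = x ∧ y * x * y = y) ∧ (∃ x y : S, x * y ≠ y * x) ∧
    (∃ x : Fin 3 → S, LeftPath 2 x) ∧ ∀ (n : ℕ) (x : Fin (n + 1) → S), LeftPath n x → 2 ≤ n := by
  refine ⟨S, inferInstance, inferInstance, inv, ⟨(2 : Fin 31), (0 : Fin 31), by decide +kernel⟩,
    ⟨![(2 : Fin 31), (4 : Fin 31), (3 : Fin 31)], ?_⟩, ?_⟩
  · unfold LeftPath
    decide +kernel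
  · rintro n x ⟨h1, -, h3, h4, h5⟩
    match n with
    | 0 => exact absurd rfl h3
    | 1 =>
      rcases no1 (x 0) (x 1) (h4 0) (h5 0) (h5 1) h3 with h | h
      · obtain ⟨y, hy⟩ := h1 0
        exact absurd (h y) hy
      · obtain ⟨y, hy⟩ := h1 1
        exact absurd (h y) hy
    | n + 2 => omega

end Pool.Agent.Results.MP_90db2d_al.Two
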